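import Pool.Agent.Helper53.LeftCase

/-!
`K(E)` is not projective as a Banach left module over itself when `E` contains a complemented
copy of `ℓ¹` and has a sequential form of the bounded approximation property. The proof follows
`Pool.Agent.Helper53.LeftCase` (the case `E = ℓ¹`).
-/

set_option autoImplicit false
set_option maxSynthPendingDepth 8

namespace Pool.Agent.Y277.KE

open ContinuousLinearMap Filter Topology Pool.Agent.Helper53
open scoped ENNReal

universe u

variable {E : Type u} [NormedAddCommGroup E] [NormedSpace ℂ E]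

/-- the bilinear form `(U, V) ↦ (Q U R V J e_s)_i` -/
noncomputable def form (J : Ell1 →L[ℂ] E) (Q : E →L[ℂ] Ell1) (R : E →L[ℂ] E) (s i : ℕ) :
    Bil (E →L[ℂ] E) (compactOps E) :=
  LinearMap.mkContinuous₂
    (LinearMap.mk₂ ℂ (fun (U : E →L[ℂ] E) (V : compactOps E) =>
        (Q (U (R ((V : E →L[ℂ] E) (J (Ell1.e s)))))) i)
      (fun a b y => by simp) (fun c a y => by simp)
      (fun a y z => by simp) (fun c a y => by simp))
    (‖Q‖ * ‖R‖ * ‖J‖) (fun U V => by
      rw [LinearMap.mk₂_apply]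
      calc ‖(Q (U (R ((V : E →L[ℂ] E) (J (Ell1.e s)))))) i‖
          ≤ ‖Q (U (R ((V : E →L[ℂ] E) (J (Ell1.e s)))))‖ := Ell1.norm_apply_le _ _
        _ ≤ ‖Q‖ * (‖U‖ * (‖R‖ * (‖V‖ * (‖J‖ * ‖Ell1.e s‖)))) := by
            refine (Q.le_opNorm _).trans ?_
            gcongr
            refine (U.le_opNorm _).trans ?_
            gcongr
            refine (R.le_opNorm _).trans ?_
            gcongr
            refine ((V : E →L[ℂ] E).le_opNorm _).trans ?_
            rw [norm_coeK]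
            gcongr
            exact J.le_opNorm _
        _ = ‖Q‖ * ‖R‖ * ‖J‖ * ‖U‖ * ‖V‖ := by rw [Ell1.norm_e]; ring)

@[simp] lemma form_apply (J : Ell1 →L[ℂ] E) (Q : E →L[ℂ] Ell1) (R : E →L[ℂ] E) (s i : ℕ)
    (U : E →L[ℂ] E) (V : compactOps E) :
    form J Q R s i U V = (Q (U (R ((V : E →L[ℂ] E) (J (Ell1.e s)))))) i := rfl

lemma norm_form_le (J : Ell1 →L[ℂ] E) (Q : E →L[ℂ] Ell1) (R : E →L[ℂ] E) (s i : ℕ) :
    ‖form J Q R s i‖ ≤ ‖Q‖ * ‖R‖ * ‖J‖ :=
  LinearMap.mkContinuous₂_norm_le _ (by positivity) _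

lemma form_add (J : Ell1 →L[ℂ] E) (Q : E →L[ℂ] Ell1) (R R' : E →L[ℂ] E) (s i : ℕ) :
    form J Q (R + R') s i = form J Q R s i + form J Q R' s i := by
  ext U V
  simp

/-- compact operators and a bounded sequence of operators tending to zero -/
lemma exists_tail_small (J : Ell1 →L[ℂ] E) (S : ℕ → E →L[ℂ] E) (C : ℝ) (hC : ∀ M, ‖S M‖ ≤ C)
    (hS : ∀ x, Tendsto (fun M => S M x) atTop (𝓝 0)) (V : compactOps E) (ε : ℝ) (hε : 0 < ε) :
    ∃ M0 : ℕ, ∀ M ≥ M0, ∀ s : ℕ, ‖S M ((V : E →L[ℂ] E) (J (Ell1.e s)))‖ ≤ ε := by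
  have hC0 : 0 ≤ C := (norm_nonneg _).trans (hC 0)
  have hc : IsCompactOperator (V : E →L[ℂ] E) := V.2
  obtain ⟨D, hD, hVD⟩ := hc.image_closedBall_subset_compact (M₁ := E) (M₂ := E) ‖J‖
  have htb := hD.totallyBounded
  rw [Metric.totallyBounded_iff] at htb
  obtain ⟨t, htfin, ht⟩ := htb (ε / (2 * (C + 1))) (by positivity)
  have h1 : ∀ y ∈ t, ∀ᶠ M : ℕ in atTop, ‖S M y‖ < ε / 2 := by
    intro y _
    have := (hS y).norm
    rw [norm_zero] at this
    exact this.eventually (gt_mem_nhds (by positivity))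
  have h2 : ∀ᶠ M : ℕ in atTop, ∀ y ∈ t, ‖S M y‖ < ε / 2 :=
    (htfin.eventually_all).2 h1
  obtain ⟨M0, hM0⟩ := eventually_atTop.1 h2
  refine ⟨M0, fun M hM s => ?_⟩
  have hmem : (V : E →L[ℂ] E) (J (Ell1.e s)) ∈ D := by
    apply hVD
    refine ⟨J (Ell1.e s), ?_, rfl⟩
    rw [mem_closedBall_zero_iff]
    refine (J.le_opNorm _).trans ?_
    rw [Ell1.norm_e, mul_one]
  obtain ⟨y, hy, hy'⟩ := Set.mem_iUnion₂.1 (ht hmem)
  have h3 := hM0 M hM y hy
  rw [Metric.mem_ball, dist_eq_norm] at hy'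
  have h4 : ‖S M ((V : E →L[ℂ] E) (J (Ell1.e s)) - y)‖ ≤ ε / 2 := by
    refine ((S M).le_opNorm _).trans ?_
    calc ‖S M‖ * ‖(V : E →L[ℂ] E) (J (Ell1.e s)) - y‖ ≤ (C + 1) * (ε / (2 * (C + 1))) := by
          have := hC M
          gcongr
          linarith
      _ = ε / 2 := by field_simp
  have h5 : S M ((V : E →L[ℂ] E) (J (Ell1.e s)))
      = S M ((V : E →L[ℂ] E) (J (Ell1.e s)) - y) + S M y := by
    rw [← map_add]; simp
  rw [h5]
  refine (norm_add_le _ _).trans ?_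
  linarith

/-- the same for functionals in the closed span of the elementary tensors -/
lemma exists_tail_small_tens (J : Ell1 →L[ℂ] E) (Q : E →L[ℂ] Ell1) (S : ℕ → E →L[ℂ] E) (C : ℝ)
    (hC : ∀ M, ‖S M‖ ≤ C) (hS : ∀ x, Tendsto (fun M => S M x) atTop (𝓝 0))
    (y : BilDual (E →L[ℂ] E) (compactOps E)) (hy : y ∈ tensClosure (E →L[ℂ] E) (compactOps E))
    (ε : ℝ) (hε : 0 < ε) :
    ∃ M0 : ℕ, ∀ M ≥ M0, ∀ s : ℕ, ‖y (form J Q (S M) s 0)‖ ≤ ε := by
  have hC0 : 0 ≤ C := (norm_nonneg _).trans (hC 0)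
  let T : Submodule ℂ (BilDual (E →L[ℂ] E) (compactOps E)) :=
    { carrier := {y | ∀ ε > (0 : ℝ), ∃ M0 : ℕ, ∀ M ≥ M0, ∀ s : ℕ,
        ‖y (form J Q (S M) s 0)‖ ≤ ε}
      zero_mem' := fun ε hε => ⟨0, fun M _ s => by simpa using hε.le⟩
      add_mem' := fun {a b} ha hb ε hε => by
        obtain ⟨M1, h1⟩ := ha (ε / 2) (by positivity)
        obtain ⟨M2, h2⟩ := hb (ε / 2) (by positivity)
        refine ⟨max M1 M2, fun M hM s => ?_⟩
        have h3 := h1 M (le_trans (le_max_left _ _) hM) s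
        have h4 := h2 M (le_trans (le_max_right _ _) hM) s
        rw [add_apply]
        refine (norm_add_le _ _).trans ?_
        linarith
      smul_mem' := fun c a ha ε hε => by
        obtain ⟨M1, h1⟩ := ha (ε / (‖c‖ + 1)) (by positivity)
        refine ⟨M1, fun M hM s => ?_⟩
        have h3 := h1 M hM s
        rw [smul_apply, norm_smul]
        calc ‖c‖ * ‖a (form J Q (S M) s 0)‖ ≤ (‖c‖ + 1) * (ε / (‖c‖ + 1)) := by
              gcongr; linarith
          _ = ε := by field_simp }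
  have hle : tensClosure (E →L[ℂ] E) (compactOps E) ≤ T := by
    refine Submodule.topologicalClosure_minimal _ ?_ ?_
    · rw [Submodule.span_le]
      rintro _ ⟨⟨U, V⟩, rfl⟩
      intro ε hε
      obtain ⟨M0, h0⟩ := exists_tail_small J S C hC hS V (ε / ((‖Q‖ + 1) * (‖U‖ + 1)))
        (by positivity)
      refine ⟨M0, fun M hM s => ?_⟩
      simp only [tm_apply, form_apply]
      calc ‖(Q (U (S M ((V : E →L[ℂ] E) (J (Ell1.e s)))))) 0‖
          ≤ ‖Q (U (S M ((V : E →L[ℂ] E) (J (Ell1.e s)))))‖ := Ell1.norm_apply_le _ _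
        _ ≤ ‖Q‖ * (‖U‖ * ‖S M ((V : E →L[ℂ] E) (J (Ell1.e s)))‖) := by
            refine (Q.le_opNorm _).trans ?_
            gcongr
            exact U.le_opNorm _
        _ ≤ (‖Q‖ + 1) * ((‖U‖ + 1) * (ε / ((‖Q‖ + 1) * (‖U‖ + 1)))) := by
              have := h0 M hM s
              gcongr
              · linarith
              · linarith
        _ = ε := by field_simp
    · rw [← isSeqClosed_iff_isClosed]
      intro u z hu huz ε hε
      have h1 : ∀ᶠ n in atTop, ‖u n - z‖ < ε / (2 * (‖Q‖ * C * ‖J‖ + 1)) := by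
        have := (tendsto_iff_norm_sub_tendsto_zero.1 huz)
        exact this.eventually (gt_mem_nhds (by positivity))
      obtain ⟨n, hn⟩ := h1.exists
      obtain ⟨M0, h0⟩ := hu n (ε / 2) (by positivity)
      refine ⟨M0, fun M hM s => ?_⟩
      have h2 := h0 M hM s
      have h3 : ‖(u n - z) (form J Q (S M) s 0)‖ ≤ ε / 2 := by
        refine ((u n - z).le_opNorm _).trans ?_
        have h5 : ‖form J Q (S M) s 0‖ ≤ ‖Q‖ * C * ‖J‖ + 1 := by
          refine (norm_form_le _ _ _ _ _).trans ?_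
          have := hC M
          have h6 : ‖Q‖ * ‖S M‖ * ‖J‖ ≤ ‖Q‖ * C * ‖J‖ := by gcongr
          linarith
        calc ‖u n - z‖ * ‖form J Q (S M) s 0‖
            ≤ (ε / (2 * (‖Q‖ * C * ‖J‖ + 1))) * (‖Q‖ * C * ‖J‖ + 1) := by gcongr
          _ = ε / 2 := by field_simp
      have h4 : z (form J Q (S M) s 0) = u n (form J Q (S M) s 0)
          - (u n - z) (form J Q (S M) s 0) := by
        rw [sub_apply]; ring
      rw [h4]
      refine (norm_sub_le _ _).trans ?_
      linarith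
  exact hle hy ε hε

/-- a functional in the closed span of the elementary tensors only sees a countable set -/
lemma exists_countable (J : Ell1 →L[ℂ] E) (Q : E →L[ℂ] Ell1)
    (y : BilDual (E →L[ℂ] E) (compactOps E)) (hy : y ∈ tensClosure (E →L[ℂ] E) (compactOps E)) :
    ∃ D : Set E, D.Countable ∧ ∀ R : E →L[ℂ] E, (∀ x ∈ D, R x = 0) → ∀ s : ℕ,
      y (form J Q R s 0) = 0 := by
  let T : Submodule ℂ (BilDual (E →L[ℂ] E) (compactOps E)) :=
    { carrier := {y | ∃ D : Set E, D.Countable ∧ ∀ R : E →L[ℂ] E, (∀ x ∈ D, R x = 0) → ∀ s : ℕ,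
        y (form J Q R s 0) = 0}
      zero_mem' := ⟨∅, Set.countable_empty, fun R _ s => by simp⟩
      add_mem' := fun {a b} ha hb => by
        obtain ⟨D1, hD1, h1⟩ := ha
        obtain ⟨D2, hD2, h2⟩ := hb
        refine ⟨D1 ∪ D2, hD1.union hD2, fun R hR s => ?_⟩
        rw [add_apply, h1 R (fun x hx => hR x (Or.inl hx)) s,
          h2 R (fun x hx => hR x (Or.inr hx)) s, add_zero]
      smul_mem' := fun c a ha => by
        obtain ⟨D1, hD1, h1⟩ := ha
        refine ⟨D1, hD1, fun R hR s => ?_⟩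
        rw [smul_apply, h1 R hR s, smul_zero] }
  have hle : tensClosure (E →L[ℂ] E) (compactOps E) ≤ T := by
    refine Submodule.topologicalClosure_minimal _ ?_ ?_
    · rw [Submodule.span_le]
      rintro _ ⟨⟨U, V⟩, rfl⟩
      refine ⟨Set.range (fun s : ℕ => (V : E →L[ℂ] E) (J (Ell1.e s))), Set.countable_range _,
        fun R hR s => ?_⟩
      simp only [tm_apply, form_apply]
      rw [hR _ ⟨s, rfl⟩]
      simp
    · rw [← isSeqClosed_iff_isClosed]
      intro v z hv hvz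
      choose D hD h using hv
      refine ⟨⋃ n, D n, Set.countable_iUnion hD, fun R hR s => ?_⟩
      have h1 : ∀ n, v n (form J Q R s 0) = 0 := fun n =>
        h n R (fun x hx => hR x (Set.mem_iUnion.2 ⟨n, hx⟩)) s
      have h2 : Tendsto (fun n => v n (form J Q R s 0)) atTop (𝓝 (z (form J Q R s 0))) :=
        ((ContinuousLinearMap.apply ℂ ℂ (form J Q R s 0)).continuous.tendsto z).comp hvz
      simp only [h1] at h2
      exact (tendsto_nhds_unique h2 tendsto_const_nhds)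
  exact hle hy

/-- finite rank operators: the forms along a diagonal are uniformly bounded -/
lemma exists_beta_bound (J : Ell1 →L[ℂ] E) (Q : E →L[ℂ] Ell1) (R : E →L[ℂ] E)
    (hR : FiniteDimensional ℂ (LinearMap.range (R : E →ₗ[ℂ] E))) :
    ∃ C : ℝ, 0 ≤ C ∧ ∀ (n : ℕ) (φ : ℕ → ℕ) (θ : ℕ → ℂ), (∀ j, ‖θ j‖ ≤ 1) →
      ‖∑ j ∈ Finset.range n, θ j • form J Q R (φ j) j‖ ≤ C := by
  let W : Submodule ℂ E := LinearMap.range (R : E →ₗ[ℂ] E)
  let b := Module.finBasis ℂ W
  let R' : E →L[ℂ] W := R.codRestrict W (fun x => ⟨x, rfl⟩)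
  let g : Fin (Module.finrank ℂ W) → (E →L[ℂ] ℂ) := fun m =>
    (LinearMap.toContinuousLinearMap (b.coord m)).comp R'
  have hRx : ∀ x, R x = ∑ m, g m x • ((b m : W) : E) := by
    intro x
    have h1 : R' x = ∑ m, b.coord m (R' x) • b m := (b.sum_repr (R' x)).symm
    have h2 := congrArg (fun w : W => (w : E)) h1
    simp only [Submodule.coe_sum, Submodule.coe_smul] at h2
    exact h2
  refine ⟨∑ m, ‖g m‖ * ‖((b m : W) : E)‖ * (‖Q‖ * ‖J‖), by positivity,
    fun n φ θ hθ => ?_⟩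
  refine opNorm_le_bound₂ _ (by positivity) (fun U V => ?_)
  have e1 : (∑ j ∈ Finset.range n, θ j • form J Q R (φ j) j) U V
      = ∑ j ∈ Finset.range n, θ j *
        ∑ m, g m ((V : E →L[ℂ] E) (J (Ell1.e (φ j)))) * (Q (U ((b m : W) : E))) j := by
    simp only [sum_apply, smul_apply, form_apply, smul_eq_mul]
    refine Finset.sum_congr rfl (fun j _ => ?_)
    congr 1
    rw [hRx, map_sum, map_sum, lp.coeFn_sum, Finset.sum_apply]
    refine Finset.sum_congr rfl (fun m _ => ?_)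
    rw [map_smul, map_smul, lp.coeFn_smul]
    rfl
  rw [e1]
  calc ‖∑ j ∈ Finset.range n, θ j *
        ∑ m, g m ((V : E →L[ℂ] E) (J (Ell1.e (φ j)))) * (Q (U ((b m : W) : E))) j‖
      ≤ ∑ j ∈ Finset.range n, ∑ m, (‖g m‖ * (‖V‖ * ‖J‖)) * ‖(Q (U ((b m : W) : E))) j‖ := by
        refine (norm_sum_le _ _).trans (Finset.sum_le_sum (fun j _ => ?_))
        rw [norm_mul]
        have e2 : ‖∑ m, g m ((V : E →L[ℂ] E) (J (Ell1.e (φ j)))) * (Q (U ((b m : W) : E))) j‖
            ≤ ∑ m, (‖g m‖ * (‖V‖ * ‖J‖)) * ‖(Q (U ((b m : W) : E))) j‖ := by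
          refine (norm_sum_le _ _).trans (Finset.sum_le_sum (fun m _ => ?_))
          rw [norm_mul]
          gcongr
          refine ((g m).le_opNorm _).trans ?_
          gcongr
          refine ((V : E →L[ℂ] E).le_opNorm _).trans ?_
          rw [norm_coeK]
          gcongr
          refine (J.le_opNorm _).trans ?_
          rw [Ell1.norm_e, mul_one]
        have e3 : (0 : ℝ) ≤ ∑ m, (‖g m‖ * (‖V‖ * ‖J‖)) * ‖(Q (U ((b m : W) : E))) j‖ := by
          positivity
        calc ‖θ j‖ * ‖∑ m, g m ((V : E →L[ℂ] E) (J (Ell1.e (φ j))))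
              * (Q (U ((b m : W) : E))) j‖
            ≤ 1 * ∑ m, (‖g m‖ * (‖V‖ * ‖J‖)) * ‖(Q (U ((b m : W) : E))) j‖ := by
              have := hθ j
              gcongr
          _ = _ := one_mul _
    _ = ∑ m, ∑ j ∈ Finset.range n, (‖g m‖ * (‖V‖ * ‖J‖)) * ‖(Q (U ((b m : W) : E))) j‖ :=
        Finset.sum_comm
    _ ≤ ∑ m, (‖g m‖ * (‖V‖ * ‖J‖)) * (‖Q‖ * (‖U‖ * ‖((b m : W) : E)‖)) := by
        refine Finset.sum_le_sum (fun m _ => ?_)
        rw [← Finset.mul_sum]
        gcongr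
        refine (Ell1.sum_norm_le _ _).trans ?_
        refine (Q.le_opNorm _).trans ?_
        gcongr
        exact U.le_opNorm _
    _ = (∑ m, ‖g m‖ * ‖((b m : W) : E)‖ * (‖Q‖ * ‖J‖)) * ‖U‖ * ‖V‖ := by
        rw [Finset.sum_mul, Finset.sum_mul]
        refine Finset.sum_congr rfl (fun m _ => ?_)
        ring

lemma form_comp_rk (J : Ell1 →L[ℂ] E) (Q : E →L[ℂ] Ell1) (hQJ : ∀ x, Q (J x) = x)
    (R : E →L[ℂ] E) (s i j : ℕ) :
    (form J Q R s j).comp (compL ℂ E E E
      (rk E (J (Ell1.e i)) ((Ell1.coord 0).comp Q) : E →L[ℂ] E)) =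
      if j = i then form J Q R s 0 else 0 := by
  ext U V
  simp only [ContinuousLinearMap.comp_apply, form_apply, compL_apply, rk_apply, Ell1.coord_apply,
    map_smul, hQJ, lp.coeFn_smul, Pi.smul_apply, smul_eq_mul, Ell1.e_apply]
  split_ifs <;> simp

section Main

variable (J : Ell1 →L[ℂ] E) (Q : E →L[ℂ] Ell1)
variable (ρ : compactOps E →L[ℂ] BilDual (E →L[ℂ] E) (compactOps E))

/-- auxiliary element -/
noncomputable def zz (f : Left.Du) : BilDual (E →L[ℂ] E) (compactOps E) :=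
  ρ (rk E (J (Ell1.e 0)) (f.comp Q))

/-- auxiliary functional -/
noncomputable def ww (β : Bil (E →L[ℂ] E) (compactOps E)) : Left.Du →L[ℂ] ℂ :=
  (ContinuousLinearMap.apply ℂ ℂ β).comp ((ρ.comp (rkL E (J (Ell1.e 0)))).comp
    ((compL ℂ E Ell1 ℂ).flip Q))

lemma ww_apply (β : Bil (E →L[ℂ] E) (compactOps E)) (f : Left.Du) :
    ww J Q ρ β f = zz J Q ρ f β := rfl

lemma norm_ww_le (β : Bil (E →L[ℂ] E) (compactOps E)) :
    ‖ww J Q ρ β‖ ≤ ‖β‖ * (‖ρ‖ * (‖Q‖ * ‖J‖)) := by
  refine opNorm_le_bound _ (by positivity) (fun f => ?_)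
  rw [ww_apply, zz]
  refine (le_opNorm _ _).trans ?_
  have h1 : ‖ρ (rk E (J (Ell1.e 0)) (f.comp Q))‖ ≤ ‖ρ‖ * (‖f‖ * ‖Q‖ * ‖J‖) := by
    refine (le_opNorm _ _).trans ?_
    rw [norm_rk]
    gcongr
    · exact opNorm_comp_le _ _
    · refine (J.le_opNorm _).trans ?_
      rw [Ell1.norm_e, mul_one]
  calc ‖ρ (rk E (J (Ell1.e 0)) (f.comp Q))‖ * ‖β‖ ≤ (‖ρ‖ * (‖f‖ * ‖Q‖ * ‖J‖)) * ‖β‖ := by gcongr
    _ = ‖β‖ * (‖ρ‖ * (‖Q‖ * ‖J‖)) * ‖f‖ := by ring

/-- The key step: for some truncation level the tails are small at infinitely many places. -/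
lemma exists_frequently
    (h3 : ∀ x, ρ x ∈ tensClosure (E →L[ℂ] E) (compactOps E))
    (S : ℕ → E →L[ℂ] E) (C : ℝ) (hC : ∀ M, ‖S M‖ ≤ C)
    (hS : ∀ x, Tendsto (fun M => S M x) atTop (𝓝 0)) :
    ∃ M : ℕ, ∃ᶠ s in atTop, ‖zz J Q ρ (Ell1.coord s) (form J Q (S M) s 0)‖ ≤ 1 / 2 := by
  have hC0 : 0 ≤ C := (norm_nonneg _).trans (hC 0)
  by_contra hcon
  push Not at hcon
  have hcon' : ∀ M : ℕ, ∀ᶠ s in atTop,
      1 / 2 < ‖zz J Q ρ (Ell1.coord s) (form J Q (S M) s 0)‖ := by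
    intro M
    have := hcon M
    simpa [Filter.Frequently] using this
  obtain ⟨φ, hφ, hφ'⟩ := extraction_forall_of_eventually hcon'
  let w : ℕ → (Left.Du →L[ℂ] ℂ) := fun i => ww J Q ρ (form J Q (S i) (φ i) 0)
  set C' : ℝ := (‖Q‖ * C * ‖J‖) * (‖ρ‖ * (‖Q‖ * ‖J‖)) with hC'
  have hC'0 : 0 ≤ C' := by positivity
  have hwn : ∀ i, ‖w i‖ ≤ C' := by
    intro i
    refine (norm_ww_le J Q ρ _).trans ?_
    have h5 : ‖form J Q (S i) (φ i) 0‖ ≤ ‖Q‖ * C * ‖J‖ := by
      refine (norm_form_le _ _ _ _ _).trans ?_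
      have := hC i
      gcongr
    rw [hC']
    gcongr
  obtain ⟨A, hA, hA'⟩ := rosenthal (fun i A => ‖(w i).comp (Left.dres (φ '' A))‖)
    (fun i A => norm_nonneg _)
    (fun i A A' hd => by
      have h1 : Disjoint (φ '' A) (φ '' A') :=
        Set.disjoint_image_of_injective hφ.injective hd
      have h2 := Left.comp_dres_super (w i) h1
      rwa [← Set.image_union] at h2)
    (fun i A A' hs => Left.comp_dres_mono (w i) (Set.image_mono hs))
    C' (fun i A => by
      refine (opNorm_comp_le _ _).trans ?_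
      have h1 := Left.norm_dres_le (φ '' A)
      have h2 := hwn i
      nlinarith [norm_nonneg (w i), norm_nonneg (Left.dres (φ '' A))]) (1 / 4) (by norm_num)
  let f : Left.Du := Left.sumf.comp (Ell1.restr (φ '' A))
  obtain ⟨M0, hM0⟩ := exists_tail_small_tens J Q S C hC hS (zz J Q ρ f) (h3 _) (1 / 8)
    (by norm_num)
  obtain ⟨i, hiA, hi⟩ := hA.exists_gt M0
  have h1 := hM0 i hi.le (φ i)
  have hdec : f = Ell1.coord (φ i) + Left.dres (φ '' (A \ {i})) Left.sumf := by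
    have hset : φ '' A = {φ i} ∪ φ '' (A \ {i}) := by
      rw [← Set.image_singleton, ← Set.image_union]
      congr 1
      rw [Set.union_sdiff_self]
      exact (Set.union_eq_right.2 (Set.singleton_subset_iff.2 hiA)).symm
    have hdis : Disjoint ({φ i} : Set ℕ) (φ '' (A \ {i})) := by
      rw [Set.disjoint_singleton_left]
      rintro ⟨k, hk, hk'⟩
      exact hk.2 (hφ.injective hk')
    simp only [f]
    rw [hset, Ell1.restr_union hdis, ContinuousLinearMap.comp_add, Left.sumf_restr_singleton]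
    rfl
  have h2 : w i f = w i (Ell1.coord (φ i))
      + (w i).comp (Left.dres (φ '' (A \ {i}))) Left.sumf := by
    conv_lhs => rw [hdec, map_add]
    rfl
  have h4 : ‖(w i).comp (Left.dres (φ '' (A \ {i}))) Left.sumf‖ ≤ 1 / 4 := by
    refine (le_opNorm _ _).trans ?_
    have h5 := hA' i hiA
    have h6 := Left.norm_sumf_le
    nlinarith [norm_nonneg Left.sumf, norm_nonneg ((w i).comp (Left.dres (φ '' (A \ {i}))))]
  have h7 : 1 / 2 < ‖w i (Ell1.coord (φ i))‖ := hφ' i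
  have h8 : ‖w i f‖ ≤ 1 / 8 := h1
  have h9 : w i (Ell1.coord (φ i)) = w i f
      - (w i).comp (Left.dres (φ '' (A \ {i}))) Left.sumf := by
    rw [h2]; ring
  rw [h9] at h7
  have h10 := norm_sub_le (w i f) ((w i).comp (Left.dres (φ '' (A \ {i}))) Left.sumf)
  linarith

end Main

/-- `E` has the sequential approximation property used here: for every countable set `S` there
is a sequence of operators of finite rank which converges pointwise to an operator that is the
identity on `S`. -/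
def SeqAP (E : Type u) [NormedAddCommGroup E] [NormedSpace ℂ E] : Prop :=
  ∀ S : Set E, S.Countable → ∃ (R : ℕ → E →L[ℂ] E) (P : E →L[ℂ] E),
    (∀ M, FiniteDimensional ℂ (LinearMap.range (R M : E →ₗ[ℂ] E))) ∧
    (∀ x, Tendsto (fun M => R M x) atTop (𝓝 (P x))) ∧ ∀ x ∈ S, P x = x

/-- `E` contains a complemented subspace isomorphic to `F`: there are bounded operators
`J : F → E` and `Q : E → F` with `Q ∘ J` the identity. -/
def IsComplementedIn (F : Type*) [NormedAddCommGroup F] [NormedSpace ℂ F]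
    (E : Type*) [NormedAddCommGroup E] [NormedSpace ℂ E] : Prop :=
  ∃ (J : F →L[ℂ] E) (Q : E →L[ℂ] F), ∀ x, Q (J x) = x

/-- `E` contains a complemented subspace isomorphic to `ℓ¹`. -/
def ComplementedEll1 (E : Type u) [NormedAddCommGroup E] [NormedSpace ℂ E] : Prop :=
  IsComplementedIn (lp (fun _ : ℕ => ℂ) 1) E

theorem not_leftProjective [CompleteSpace E] (hE : SeqAP E) (hJ : ComplementedEll1 E) :
    ¬ LeftProjective (leftRegular (compactOps E)) := by
  intro h
  obtain ⟨J, Q, hQJ⟩ := hJ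
  obtain ⟨ρ, h1, h2, h3⟩ := exists_rho_left E h
  -- the countable set
  have hD := fun s : ℕ => exists_countable J Q (zz J Q ρ (Ell1.coord s)) (h3 _)
  choose D hDc hD0 using hD
  obtain ⟨R, P, hfin, hlim, hP⟩ := hE (⋃ s, D s) (Set.countable_iUnion hDc)
  set S : ℕ → E →L[ℂ] E := fun M => P - R M with hSdef
  have hS : ∀ x, Tendsto (fun M => S M x) atTop (𝓝 0) := by
    intro x
    have := (tendsto_const_nhds (x := P x)).sub (hlim x)
    rw [sub_self] at this
    exact this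
  obtain ⟨C, hC⟩ : ∃ C, ∀ M, ‖S M‖ ≤ C := by
    apply banach_steinhaus
    intro x
    obtain ⟨C, hC⟩ := (hS x).norm.bddAbove_range
    exact ⟨C, fun M => hC ⟨M, rfl⟩⟩
  obtain ⟨M, hM⟩ := exists_frequently J Q ρ h3 S C hC hS
  obtain ⟨φ, hφ, hφ'⟩ := extraction_of_frequently_atTop hM
  have hone : ∀ s, zz J Q ρ (Ell1.coord s) (form J Q (R M) s 0)
      + zz J Q ρ (Ell1.coord s) (form J Q (S M) s 0) = 1 := by
    intro s
    have e0 : zz J Q ρ (Ell1.coord s) (form J Q (ContinuousLinearMap.id ℂ E - P) s 0) = 0 := by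
      apply hD0 s
      intro x hx
      rw [sub_apply, id_apply, hP x (Set.mem_iUnion.2 ⟨s, hx⟩), sub_self]
    have e1 : form J Q (ContinuousLinearMap.id ℂ E) s 0
        = form J Q (R M) s 0 + form J Q (S M) s 0
          + form J Q (ContinuousLinearMap.id ℂ E - P) s 0 := by
      have e7 : ContinuousLinearMap.id ℂ E = R M + S M + (ContinuousLinearMap.id ℂ E - P) := by
        ext x
        simp only [hSdef, id_apply, add_apply, sub_apply]
        abel
      rw [← form_add, ← form_add, ← e7]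
    let ψ : compactOps E →L[ℂ] ℂ := ((Ell1.coord 0).comp Q).comp
      ((ContinuousLinearMap.apply ℂ E (J (Ell1.e s))).comp (inclK E))
    have e2 : (compL ℂ (compactOps E) (compactOps E) ℂ ψ).comp (mL E)
        = form J Q (ContinuousLinearMap.id ℂ E) s 0 := by
      ext U V
      rfl
    have e3 := h2 (rk E (J (Ell1.e 0)) ((Ell1.coord s).comp Q)) ψ
    rw [e2, e1, map_add, map_add] at e3
    have e4 : ψ (rk E (J (Ell1.e 0)) ((Ell1.coord s).comp Q)) = 1 := by
      show (Q ((Q (J (Ell1.e s))) s • J (Ell1.e 0))) 0 = 1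
      rw [hQJ, map_smul, hQJ]
      simp
    rw [e4] at e3
    have e5 : ρ (rk E (J (Ell1.e 0)) ((Ell1.coord s).comp Q))
        (form J Q (ContinuousLinearMap.id ℂ E - P) s 0) = 0 := e0
    rw [e5, add_zero] at e3
    exact e3
  have hge : ∀ j, 1 / 2 ≤ ‖zz J Q ρ (Ell1.coord (φ j)) (form J Q (R M) (φ j) 0)‖ := by
    intro j
    have e4 := hone (φ j)
    have e5 : (1 : ℝ) ≤ ‖zz J Q ρ (Ell1.coord (φ j)) (form J Q (R M) (φ j) 0)‖
        + ‖zz J Q ρ (Ell1.coord (φ j)) (form J Q (S M) (φ j) 0)‖ := by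
      have := norm_add_le (zz J Q ρ (Ell1.coord (φ j)) (form J Q (R M) (φ j) 0))
        (zz J Q ρ (Ell1.coord (φ j)) (form J Q (S M) (φ j) 0))
      rw [e4] at this
      simpa using this
    have := hφ' j
    linarith
  have hth : ∀ j, ∃ θ : ℂ, ‖θ‖ ≤ 1 ∧
      θ * zz J Q ρ (Ell1.coord (φ j)) (form J Q (R M) (φ j) 0) =
      (‖zz J Q ρ (Ell1.coord (φ j)) (form J Q (R M) (φ j) 0)‖ : ℂ) := fun j => exists_phase _
  choose θ hθ hθ' using hth
  obtain ⟨CR, hCR0, hCR⟩ := exists_beta_bound J Q (R M) (hfin M)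
  -- the estimate for each `n`
  have main : ∀ n : ℕ, (n : ℝ) / 2 ≤ ‖ρ‖ * (‖J‖ * ‖Q‖) * CR := by
    intro n
    let T : compactOps E := ∑ i ∈ Finset.range n,
      rk E (J (Ell1.e i)) ((Ell1.coord (φ i)).comp Q)
    let β : Bil (E →L[ℂ] E) (compactOps E) :=
      ∑ j ∈ Finset.range n, θ j • form J Q (R M) (φ j) j
    have hT : ‖T‖ ≤ ‖J‖ * ‖Q‖ := by
      rw [← norm_coeK]
      refine opNorm_le_bound _ (by positivity) (fun x => ?_)
      have e1 : (T : E →L[ℂ] E) x = J (∑ i ∈ Finset.range n, (Q x) (φ i) • Ell1.e i) := by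
        simp only [T]
        rw [AddSubmonoidClass.coe_finsetSum, sum_apply, map_sum]
        refine Finset.sum_congr rfl (fun i _ => ?_)
        rw [map_smul]
        rfl
      rw [e1]
      refine (J.le_opNorm _).trans ?_
      rw [mul_assoc]
      gcongr
      calc ‖∑ i ∈ Finset.range n, (Q x) (φ i) • Ell1.e i‖
          ≤ ∑ i ∈ Finset.range n, ‖(Q x) (φ i) • Ell1.e i‖ := norm_sum_le _ _
        _ = ∑ i ∈ Finset.range n, ‖(Q x) (φ i)‖ := by
            refine Finset.sum_congr rfl (fun i _ => ?_)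
            rw [norm_smul, Ell1.norm_e, mul_one]
        _ = ∑ k ∈ (Finset.range n).image φ, ‖(Q x) k‖ := by
            rw [Finset.sum_image (fun a _ b _ h => hφ.injective h)]
        _ ≤ ‖Q x‖ := Ell1.sum_norm_le _ _
        _ ≤ ‖Q‖ * ‖x‖ := Q.le_opNorm _
    have hβ : ‖β‖ ≤ CR := hCR n φ θ hθ
    have hval : ρ T β = ((∑ j ∈ Finset.range n,
        ‖zz J Q ρ (Ell1.coord (φ j)) (form J Q (R M) (φ j) 0)‖ : ℝ) : ℂ) := by
      have e1 : ∀ i j : ℕ, ρ (rk E (J (Ell1.e i)) ((Ell1.coord (φ i)).comp Q))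
          (form J Q (R M) (φ j) j) =
          if j = i then zz J Q ρ (Ell1.coord (φ i)) (form J Q (R M) (φ j) 0) else 0 := by
        intro i j
        have e2 : rk E (J (Ell1.e i)) ((Ell1.coord (φ i)).comp Q) =
            rk E (J (Ell1.e i)) ((Ell1.coord 0).comp Q)
              * rk E (J (Ell1.e 0)) ((Ell1.coord (φ i)).comp Q) := by
          rw [rk_mul_rk]
          have e6 : ((Ell1.coord 0).comp Q) (J (Ell1.e 0)) = 1 := by
            rw [ContinuousLinearMap.comp_apply, hQJ]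
            simp
          rw [e6, one_smul]
        rw [e2, h1, form_comp_rk J Q hQJ]
        split_ifs with h
        · rfl
        · simp
      calc ρ T β = ∑ j ∈ Finset.range n, ∑ i ∈ Finset.range n, θ j *
            ρ (rk E (J (Ell1.e i)) ((Ell1.coord (φ i)).comp Q)) (form J Q (R M) (φ j) j) := by
            simp only [T, β, map_sum, sum_apply, map_smul, smul_eq_mul]
            refine Finset.sum_congr rfl (fun j _ => ?_)
            rw [Finset.mul_sum]
        _ = ∑ j ∈ Finset.range n,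
              θ j * zz J Q ρ (Ell1.coord (φ j)) (form J Q (R M) (φ j) 0) := by
            refine Finset.sum_congr rfl (fun j hj => ?_)
            simp only [e1]
            rw [Finset.sum_eq_single j]
            · simp
            · intro b _ hb
              simp [Ne.symm hb]
            · intro hj'; exact absurd hj hj'
        _ = _ := by
            push_cast
            exact Finset.sum_congr rfl (fun j _ => hθ' j)
    have hle : ‖ρ T β‖ ≤ ‖ρ‖ * (‖J‖ * ‖Q‖) * CR := by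
      calc ‖ρ T β‖ ≤ ‖ρ T‖ * ‖β‖ := le_opNorm _ _
        _ ≤ (‖ρ‖ * ‖T‖) * ‖β‖ := by
            gcongr; exact le_opNorm _ _
        _ ≤ (‖ρ‖ * (‖J‖ * ‖Q‖)) * CR := by gcongr
    rw [hval, Complex.norm_real, Real.norm_of_nonneg (by positivity)] at hle
    refine le_trans ?_ hle
    calc (n : ℝ) / 2 = ∑ j ∈ Finset.range n, (1 / 2 : ℝ) := by
          rw [Finset.sum_const, Finset.card_range, nsmul_eq_mul]; ring
      _ ≤ _ := Finset.sum_le_sum (fun j _ => hge j)
  obtain ⟨n, hn⟩ := exists_nat_gt (2 * (‖ρ‖ * (‖J‖ * ‖Q‖) * CR))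
  have := main n
  linarith

end Pool.Agent.Y277.KE
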