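import Pool.Agent.H86R3.Rosenthal
import Pool.Agent.Y277.KE.Main

/-!
If the dual of a complex Banach space `E` contains an isomorphic copy of `c₀`, then `E` contains
a complemented copy of `ℓ¹` (Bessaga and Pelczynski).
-/

set_option autoImplicit false
set_option maxSynthPendingDepth 3

namespace Pool.Agent.Y277.KE

open ContinuousLinearMap Filter Topology Pool.Agent.Helper53
open scoped ENNReal

universe u

/-- `G` contains an isomorphic copy of `F`: there is a bounded operator from `F` to `G` which is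
bounded below. -/
def ContainsCopy (G : Type*) [NormedAddCommGroup G] [NormedSpace ℂ G]
    (F : Type*) [NormedAddCommGroup F] [NormedSpace ℂ F] : Prop :=
  ∃ (T : F →L[ℂ] G) (c : ℝ), 0 < c ∧ ∀ x, c * ‖x‖ ≤ ‖T x‖

/-- The dual space of `E` contains an isomorphic copy of `c₀`: there is a bounded operator from
`c₀` to the dual of `E` which is bounded below. -/
def DualContainsC0 (E : Type u) [NormedAddCommGroup E] [NormedSpace ℂ E] : Prop :=
  ContainsCopy (StrongDual ℂ E) (ZeroAtInftyContinuousMap ℕ ℂ)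

/-- Unit vectors of `c₀`. -/
noncomputable def unitC (k : ℕ) : ZeroAtInftyContinuousMap ℕ ℂ where
  toFun := fun n => if n = k then 1 else 0
  continuous_toFun := continuous_of_discreteTopology
  zero_at_infty' := by
    rw [cocompact_eq_cofinite, Nat.cofinite_eq_atTop]
    refine tendsto_const_nhds.congr' ?_
    filter_upwards [eventually_gt_atTop k] with n hn
    simp [hn.ne']

@[simp] lemma unitC_apply (k n : ℕ) : unitC k n = if n = k then 1 else 0 := rfl

lemma normC_le_iff (f : ZeroAtInftyContinuousMap ℕ ℂ) {C : ℝ} (hC : 0 ≤ C) :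
    ‖f‖ ≤ C ↔ ∀ n, ‖f n‖ ≤ C := by
  rw [← ZeroAtInftyContinuousMap.norm_toBCF_eq_norm, BoundedContinuousFunction.norm_le hC]
  rfl

lemma normC_apply_le (f : ZeroAtInftyContinuousMap ℕ ℂ) (n : ℕ) : ‖f n‖ ≤ ‖f‖ :=
  (normC_le_iff f (norm_nonneg _)).1 le_rfl n

lemma sum_unitC_apply (F : Finset ℕ) (a : ℕ → ℂ) (n : ℕ) :
    (∑ k ∈ F, a k • unitC k) n = if n ∈ F then a n else 0 := by
  classical
  have h1 : ∀ s : Finset ℕ, (∑ k ∈ s, a k • unitC k) n = ∑ k ∈ s, (a k • unitC k) n := by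
    intro s
    induction s using Finset.induction_on with
    | empty => simp
    | insert b s hb ih =>
      rw [Finset.sum_insert hb, Finset.sum_insert hb, ZeroAtInftyContinuousMap.add_apply, ih]
  rw [h1]
  simp only [ZeroAtInftyContinuousMap.smul_apply, unitC_apply, smul_eq_mul, mul_ite, mul_one,
    mul_zero]
  rw [Finset.sum_ite_eq]

lemma norm_sum_unitC_le (F : Finset ℕ) (a : ℕ → ℂ) (ha : ∀ n, ‖a n‖ ≤ 1) :
    ‖∑ k ∈ F, a k • unitC k‖ ≤ 1 := by
  rw [normC_le_iff _ zero_le_one]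
  intro n
  rw [sum_unitC_apply]
  split_ifs
  · exact ha n
  · simp

lemma one_le_norm_unitC (k : ℕ) : 1 ≤ ‖unitC k‖ := by
  have := normC_apply_le (unitC k) k
  simpa using this

/-- an operator on `ℓ¹` is determined in norm by the unit vectors -/
lemma opNorm_le_of_unit {F : Type*} [NormedAddCommGroup F] [NormedSpace ℂ F]
    (N : lp (fun _ : ℕ => ℂ) 1 →L[ℂ] F) (c : ℝ) (hc : 0 ≤ c)
    (h : ∀ k, ‖N (Ell1.e k)‖ ≤ c) : ‖N‖ ≤ c := by
  refine opNorm_le_bound _ hc (fun x => ?_)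
  have h1 : HasSum (fun i : ℕ => x i • Ell1.e i) x := by
    have := lp.hasSum_single (p := 1) (by simp) x
    refine this.congr_fun ?_ |> fun h => h
    intro i
    unfold Ell1.e
    rw [← lp.single_smul, smul_eq_mul, mul_one]
  have h2 := h1.mapL N
  have h3 : Summable fun i : ℕ => ‖N (x i • Ell1.e i)‖ := by
    refine Summable.of_nonneg_of_le (fun _ => norm_nonneg _) (fun i => ?_)
      ((Ell1.summable_norm x).mul_left c)
    rw [map_smul, norm_smul, mul_comm]
    gcongr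
    exact h i
  rw [← h2.tsum_eq]
  refine (norm_tsum_le_tsum_norm h3).trans ?_
  rw [Ell1.norm_eq, ← tsum_mul_left]
  refine h3.tsum_le_tsum (fun i => ?_) ((Ell1.summable_norm x).mul_left c)
  rw [map_smul, norm_smul, mul_comm]
  gcongr
  exact h i

variable {E : Type u} [NormedAddCommGroup E] [NormedSpace ℂ E]

/-- the operator from `ℓ¹` given by a bounded sequence -/
lemma exists_op_of_bounded [CompleteSpace E] (y : ℕ → E) (K : ℝ) (hy : ∀ n, ‖y n‖ ≤ K) :
    ∃ J : lp (fun _ : ℕ => ℂ) 1 →L[ℂ] E, ∀ k, J (Ell1.e k) = y k := by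
  have hs : ∀ x : lp (fun _ : ℕ => ℂ) 1, Summable fun n => x n • y n := by
    intro x
    refine Summable.of_norm_bounded ((Ell1.summable_norm x).mul_right K) (fun n => ?_)
    rw [norm_smul]
    gcongr
    exact hy n
  refine ⟨LinearMap.mkContinuous
    { toFun := fun x => ∑' n, x n • y n
      map_add' := fun x z => by
        rw [← (hs x).tsum_add (hs z)]
        exact tsum_congr fun n => by rw [lp.coeFn_add, Pi.add_apply, add_smul]
      map_smul' := fun c x => by
        rw [RingHom.id_apply, ← (hs x).tsum_const_smul]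
        exact tsum_congr fun n => by
          rw [lp.coeFn_smul, Pi.smul_apply, smul_eq_mul, mul_smul] } K (fun x => ?_), fun k => ?_⟩
  · have h1 : Summable fun n => ‖x n • y n‖ := by
      refine Summable.of_nonneg_of_le (fun _ => norm_nonneg _) (fun n => ?_)
        ((Ell1.summable_norm x).mul_right K)
      rw [norm_smul]
      gcongr
      exact hy n
    refine (norm_tsum_le_tsum_norm h1).trans ?_
    rw [Ell1.norm_eq, mul_comm, ← tsum_mul_right]
    refine h1.tsum_le_tsum (fun n => ?_) ((Ell1.summable_norm x).mul_right K)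
    rw [norm_smul]
    gcongr
    exact hy n
  · show ∑' n, (Ell1.e k) n • y n = y k
    rw [tsum_eq_single k]
    · simp
    · intro n hn
      rw [Ell1.e_ne hn, zero_smul]

theorem complementedEll1_of_dual [CompleteSpace E] (h : DualContainsC0 E) :
    ComplementedEll1 E := by
  classical
  obtain ⟨T, c, hc, hT⟩ := h
  set f : ℕ → StrongDual ℂ E := fun n => T (unitC n) with hf
  have hfc : ∀ n, c ≤ ‖f n‖ := by
    intro n
    refine le_trans ?_ (hT (unitC n))
    have := one_le_norm_unitC n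
    nlinarith
  have hwuc : ∀ (F : Finset ℕ) (x : E), ∑ n ∈ F, ‖f n x‖ ≤ ‖T‖ * ‖x‖ := by
    intro F x
    have hph : ∀ n, ∃ θ : ℂ, ‖θ‖ ≤ 1 ∧ θ * f n x = (‖f n x‖ : ℂ) := fun n => exists_phase _
    choose θ hθ hθ' using hph
    have h1 : ((∑ n ∈ F, ‖f n x‖ : ℝ) : ℂ) = T (∑ n ∈ F, θ n • unitC n) x := by
      rw [map_sum, sum_apply]
      push_cast
      refine Finset.sum_congr rfl (fun n _ => ?_)
      rw [map_smul, smul_apply, smul_eq_mul]
      exact (hθ' n).symm
    have h2 : ‖T (∑ n ∈ F, θ n • unitC n) x‖ ≤ ‖T‖ * ‖x‖ := by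
      refine (le_opNorm _ _).trans ?_
      gcongr
      refine (T.le_opNorm _).trans ?_
      have := norm_sum_unitC_le F θ hθ
      nlinarith [norm_nonneg T]
    rw [← h1, Complex.norm_real,
      Real.norm_of_nonneg (Finset.sum_nonneg fun _ _ => norm_nonneg _)] at h2
    exact h2
  -- the vectors
  have hx : ∀ n, ∃ x : E, ‖x‖ ≤ 2 / c ∧ f n x = 1 := by
    intro n
    have h1 : c / 2 < ‖f n‖ := by linarith [hfc n]
    obtain ⟨z, hz1, hz2⟩ : ∃ z : E, ‖z‖ < 1 ∧ c / 2 < ‖f n z‖ :=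
      ContinuousLinearMap.exists_lt_apply_of_lt_opNorm (f n) h1
    have hne : f n z ≠ 0 := by
      intro h0
      rw [h0, norm_zero] at hz2
      linarith
    refine ⟨(f n z)⁻¹ • z, ?_, ?_⟩
    · rw [norm_smul, norm_inv]
      have h2 : ‖f n z‖⁻¹ ≤ 2 / c := by
        rw [inv_le_comm₀ (by linarith) (by positivity), inv_div]
        exact hz2.le
      calc ‖f n z‖⁻¹ * ‖z‖ ≤ (2 / c) * 1 := by gcongr
        _ = 2 / c := mul_one _
    · rw [map_smul, smul_eq_mul, inv_mul_cancel₀ hne]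
  choose x hx1 hx2 using hx
  obtain ⟨φ, hφ, hφs⟩ := Pool.Agent.H86R3.rosenthal (fun k j => ‖f j (x k)‖)
    (fun _ _ => norm_nonneg _) (‖T‖ * (2 / c)) (fun k F => (hwuc F (x k)).trans (by
      gcongr
      exact hx1 k)) (1 / 2) (by norm_num)
  obtain ⟨J, hJ⟩ := exists_op_of_bounded (fun k => x (φ k)) (2 / c) (fun k => hx1 _)
  have hsum : ∀ (y : E) (F : Finset ℕ), ∑ n ∈ F, ‖f (φ n) y‖ ≤ ‖T‖ * ‖y‖ := by
    intro y F
    have := hwuc (F.image φ) y
    rwa [Finset.sum_image (fun a _ b _ h => hφ.injective h)] at this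
  have hsm : ∀ y : E, Summable fun n => ‖f (φ n) y‖ := fun y =>
    summable_of_sum_le (fun _ => norm_nonneg _) (hsum y)
  let Q : E →L[ℂ] lp (fun _ : ℕ => ℂ) 1 := LinearMap.mkContinuous
    { toFun := fun y => Ell1.mk (fun n => f (φ n) y) (hsm y)
      map_add' := fun x y => by
        ext i
        simp
      map_smul' := fun c x => by
        ext i
        simp }
    ‖T‖ (fun y => Ell1.norm_le_of_sum_le _ _ (fun F => hsum y F))
  set B : lp (fun _ : ℕ => ℂ) 1 →L[ℂ] lp (fun _ : ℕ => ℂ) 1 := Q.comp J with hB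
  have hN : ‖(1 : lp (fun _ : ℕ => ℂ) 1 →L[ℂ] lp (fun _ : ℕ => ℂ) 1) - B‖ ≤ 1 / 2 := by
    refine opNorm_le_of_unit _ _ (by norm_num) (fun k => ?_)
    refine Ell1.norm_le_of_sum_le _ _ (fun F => ?_)
    have h1 : ∀ j, ‖(((1 : lp (fun _ : ℕ => ℂ) 1 →L[ℂ] lp (fun _ : ℕ => ℂ) 1) - B)
        (Ell1.e k)) j‖ = if j = k then 0 else ‖f (φ j) (x (φ k))‖ := by
      intro j
      have e1 : (((1 : lp (fun _ : ℕ => ℂ) 1 →L[ℂ] lp (fun _ : ℕ => ℂ) 1) - B)
        (Ell1.e k)) j = Ell1.e k j - f (φ j) (x (φ k)) := by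
        rw [sub_apply, lp.coeFn_sub, Pi.sub_apply]
        congr 1
        show f (φ j) (J (Ell1.e k)) = _
        rw [hJ]
      rw [e1, Ell1.e_apply]
      split_ifs with h
      · subst h
        rw [hx2, sub_self, norm_zero]
      · rw [zero_sub, norm_neg]
    simp only [h1]
    calc ∑ j ∈ F, (if j = k then 0 else ‖f (φ j) (x (φ k))‖)
        = ∑ j ∈ F.erase k, ‖f (φ j) (x (φ k))‖ := by
          rw [← Finset.filter_ne', Finset.sum_filter]
          refine Finset.sum_congr rfl (fun j _ => ?_)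
          by_cases h : j = k <;> simp [h]
      _ ≤ 1 / 2 := hφs k (F.erase k) (Finset.notMem_erase k F)
  have hN' : ‖(1 : lp (fun _ : ℕ => ℂ) 1 →L[ℂ] lp (fun _ : ℕ => ℂ) 1) - B‖ < 1 := by
    linarith
  let uu := Units.oneSub _ hN'
  have huB : (uu : lp (fun _ : ℕ => ℂ) 1 →L[ℂ] lp (fun _ : ℕ => ℂ) 1) = B := by
    show 1 - (1 - B) = B
    abel
  refine ⟨J.comp ((uu⁻¹ : (lp (fun _ : ℕ => ℂ) 1 →L[ℂ] lp (fun _ : ℕ => ℂ) 1)ˣ) :
    lp (fun _ : ℕ => ℂ) 1 →L[ℂ] lp (fun _ : ℕ => ℂ) 1), Q, fun x => ?_⟩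
  have h5 : B * ((uu⁻¹ : (lp (fun _ : ℕ => ℂ) 1 →L[ℂ] lp (fun _ : ℕ => ℂ) 1)ˣ) :
      lp (fun _ : ℕ => ℂ) 1 →L[ℂ] lp (fun _ : ℕ => ℂ) 1) = 1 := by
    rw [← huB]
    exact uu.mul_inv
  have h6 := congrArg (fun G : lp (fun _ : ℕ => ℂ) 1 →L[ℂ] lp (fun _ : ℕ => ℂ) 1 => G x) h5
  exact h6

end Pool.Agent.Y277.KE
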