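import Pool.Agent.Y277.KE.Main

/-!
Spaces to which the theorem of `Pool.Agent.Y277.KE.Main` applies: `ℓ¹(Γ)` and products.
-/

set_option autoImplicit false
set_option maxSynthPendingDepth 3

namespace Pool.Agent.Y277.KE

open ContinuousLinearMap Filter Topology Pool.Agent.Helper53
open scoped ENNReal

universe u v

section EllG

variable {Γ : Type u}

/-- the Banach space `ℓ¹(Γ)` -/
abbrev L1 (Γ : Type u) : Type u := lp (fun _ : Γ => ℂ) 1

lemma hasSum_norm (x : L1 Γ) : HasSum (fun i => ‖x i‖) ‖x‖ := by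
  have := lp.hasSum_norm (p := 1) (by simp) x
  simpa using this

lemma summable_norm (x : L1 Γ) : Summable (fun i => ‖x i‖) := (hasSum_norm x).summable

lemma sum_norm_le (x : L1 Γ) (F : Finset Γ) : ∑ i ∈ F, ‖x i‖ ≤ ‖x‖ :=
  sum_le_hasSum F (fun _ _ => norm_nonneg _) (hasSum_norm x)

lemma norm_le_of_sum_le (x : L1 Γ) (C : ℝ) (h : ∀ F : Finset Γ, ∑ i ∈ F, ‖x i‖ ≤ C) :
    ‖x‖ ≤ C :=
  hasSum_le_of_sum_le (hasSum_norm x) h

lemma mem_of_summable (f : Γ → ℂ) (hf : Summable (fun i => ‖f i‖)) :
    Memℓp f (1 : ℝ≥0∞) := by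
  refine memℓp_gen ?_
  simpa using hf

/-- an element of `ℓ¹(Γ)` from an absolutely summable family -/
noncomputable def mk1 (f : Γ → ℂ) (hf : Summable (fun i => ‖f i‖)) : L1 Γ :=
  ⟨f, mem_of_summable f hf⟩

@[simp] lemma mk1_apply (f : Γ → ℂ) (hf : Summable (fun i => ‖f i‖)) (i : Γ) :
    mk1 f hf i = f i := rfl

lemma summable_indicator (x : L1 Γ) (B : Set Γ) :
    Summable (fun i => ‖B.indicator (fun i => x i) i‖) := by
  refine Summable.of_nonneg_of_le (fun _ => norm_nonneg _) (fun i => ?_) (summable_norm x)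
  exact norm_indicator_le_norm_self _ _

/-- restriction of the coordinates to `B` -/
noncomputable def restrG (B : Set Γ) : L1 Γ →L[ℂ] L1 Γ :=
  LinearMap.mkContinuous
    { toFun := fun x => mk1 (B.indicator (fun i => x i)) (summable_indicator x B)
      map_add' := fun x y => by
        ext i
        simp only [mk1_apply, lp.coeFn_add, Pi.add_apply]
        by_cases h : i ∈ B <;> simp [h]
      map_smul' := fun c x => by
        ext i
        simp only [mk1_apply, lp.coeFn_smul, Pi.smul_apply, RingHom.id_apply]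
        by_cases h : i ∈ B <;> simp [h] }
    1 (fun x => by
      rw [one_mul]
      refine norm_le_of_sum_le _ _ (fun F => ?_)
      refine le_trans (Finset.sum_le_sum (fun i _ => ?_)) (sum_norm_le x F)
      exact norm_indicator_le_norm_self _ _)

lemma restrG_apply (B : Set Γ) (x : L1 Γ) (i : Γ) :
    restrG B x i = B.indicator (fun i => x i) i := rfl

/-- restrictions to sets far out are small -/
lemma exists_small (x : L1 Γ) (ε : ℝ) (hε : 0 < ε) :
    ∃ F : Finset Γ, ∀ B : Set Γ, (∀ i ∈ B, i ∉ F) → ‖restrG B x‖ ≤ ε := by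
  classical
  obtain ⟨F, hF⟩ := (summable_iff_vanishing_norm.1 (summable_norm x)) ε hε
  refine ⟨F, fun B hB => norm_le_of_sum_le _ _ (fun G => ?_)⟩
  have h1 : ∑ i ∈ G, ‖restrG B x i‖ = ∑ i ∈ G.filter (· ∈ B), ‖x i‖ := by
    rw [Finset.sum_filter]
    refine Finset.sum_congr rfl (fun i _ => ?_)
    rw [restrG_apply]
    by_cases h : i ∈ B <;> simp [h]
  rw [h1]
  have h2 := hF (G.filter (· ∈ B)) (by
    rw [Finset.disjoint_left]
    intro i hi
    exact hB i (Finset.mem_filter.1 hi).2)
  rw [Real.norm_of_nonneg (Finset.sum_nonneg fun i _ => norm_nonneg _)] at h2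
  exact h2.le

lemma single_ne [DecidableEq Γ] {i j : Γ} (h : j ≠ i) :
    (lp.single 1 i (1 : ℂ) : L1 Γ) j = 0 := by
  rw [lp.single_apply]
  simp [h]

lemma finrank_restr (F : Finset Γ) : FiniteDimensional ℂ
    (LinearMap.range (restrG (F : Set Γ) : L1 Γ →ₗ[ℂ] L1 Γ)) := by
  classical
  let T : (F → ℂ) →ₗ[ℂ] L1 Γ :=
    { toFun := fun c => ∑ i : F, c i • (lp.single 1 (i : Γ) (1 : ℂ) : L1 Γ)
      map_add' := fun c d => by
        rw [← Finset.sum_add_distrib]
        exact Finset.sum_congr rfl fun i _ => by rw [Pi.add_apply, add_smul]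
      map_smul' := fun a c => by
        rw [RingHom.id_apply, Finset.smul_sum]
        exact Finset.sum_congr rfl fun i _ => by rw [Pi.smul_apply, smul_eq_mul, mul_smul] }
  have hle : LinearMap.range (restrG (F : Set Γ) : L1 Γ →ₗ[ℂ] L1 Γ) ≤ LinearMap.range T := by
    rintro _ ⟨x, rfl⟩
    refine ⟨fun i => x i, ?_⟩
    ext j
    show (∑ i : F, (x i) • (lp.single 1 (i : Γ) (1 : ℂ) : L1 Γ) : L1 Γ) j
      = restrG (F : Set Γ) x j
    rw [lp.coeFn_sum, Finset.sum_apply, restrG_apply]
    simp only [lp.coeFn_smul, Pi.smul_apply, smul_eq_mul]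
    by_cases hj : j ∈ F
    · rw [Set.indicator_of_mem (by exact_mod_cast hj), Finset.sum_eq_single ⟨j, hj⟩]
      · simp
      · intro i _ hi
        have h : j ≠ (i : Γ) := fun h => hi (Subtype.ext h.symm)
        exact mul_eq_zero_of_right _ (single_ne h)
      · simp
    · rw [Set.indicator_of_notMem (by exact_mod_cast hj)]
      apply Finset.sum_eq_zero
      intro i _
      have h : j ≠ (i : Γ) := fun h => hj (h ▸ i.2)
      exact mul_eq_zero_of_right _ (single_ne h)
  exact Submodule.finiteDimensional_of_le hle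

theorem seqAP_L1 (Γ : Type u) : SeqAP (L1 Γ) := by
  classical
  intro S hS
  have hsupp : ∀ x : L1 Γ, {i | x i ≠ 0}.Countable := by
    intro x
    have := (summable_norm x).countable_support
    refine this.mono fun i hi => ?_
    simpa [Function.mem_support] using hi
  have hc : (⋃ x ∈ S, {i | (x : L1 Γ) i ≠ 0}).Countable := hS.biUnion fun x _ => hsupp x
  rcases isEmpty_or_nonempty Γ with hemp | hne
  · refine ⟨fun _ => 0, 0, fun M => ?_, fun x => tendsto_const_nhds, fun x _ => ?_⟩
    · have : LinearMap.range ((0 : L1 Γ →L[ℂ] L1 Γ) : L1 Γ →ₗ[ℂ] L1 Γ) = ⊥ := by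
        ext y
        simp
      rw [this]
      infer_instance
    · ext i
      exact hemp.elim i
  obtain ⟨e, he⟩ : ∃ e : ℕ → Γ, (⋃ x ∈ S, {i | (x : L1 Γ) i ≠ 0}) ⊆ Set.range e := by
    rcases Set.eq_empty_or_nonempty (⋃ x ∈ S, {i | (x : L1 Γ) i ≠ 0}) with h | h
    · exact ⟨fun _ => Classical.arbitrary Γ, by rw [h]; exact Set.empty_subset _⟩
    · obtain ⟨e, he⟩ := hc.exists_eq_range h
      exact ⟨e, he.subset⟩
  refine ⟨fun M => restrG (((Finset.range M).image e : Finset Γ) : Set Γ), restrG (Set.range e),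
    fun M => finrank_restr _, fun x => ?_, fun x hx => ?_⟩
  · rw [Metric.tendsto_atTop]
    intro ε hε
    obtain ⟨F, hF⟩ := exists_small x (ε / 2) (by positivity)
    have hfin : ∃ N : ℕ, ∀ i ∈ F, i ∈ Set.range e → ∃ m < N, e m = i := by
      choose! m hm using fun (i : Γ) (hi : i ∈ Set.range e) => (hi : ∃ y, e y = i)
      refine ⟨(F.sup fun i => m i) + 1, fun i hi hr => ⟨m i, ?_, hm i hr⟩⟩
      exact Nat.lt_succ_of_le (Finset.le_sup (f := fun i => m i) hi)
    obtain ⟨N, hN⟩ := hfin
    refine ⟨N, fun M hM => ?_⟩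
    rw [dist_eq_norm]
    have h1 : restrG (((Finset.range M).image e : Finset Γ) : Set Γ) x - restrG (Set.range e) x
        = -restrG (Set.range e \ (((Finset.range M).image e : Finset Γ) : Set Γ)) x := by
      ext i
      rw [lp.coeFn_sub, Pi.sub_apply, lp.coeFn_neg, Pi.neg_apply, restrG_apply, restrG_apply,
        restrG_apply]
      by_cases h2 : i ∈ (((Finset.range M).image e : Finset Γ) : Set Γ)
      · have h3 : i ∈ Set.range e := by
          rw [Finset.coe_image] at h2
          obtain ⟨y, _, hy⟩ := h2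
          exact ⟨y, hy⟩
        rw [Set.indicator_of_mem h2, Set.indicator_of_mem h3,
          Set.indicator_of_notMem (fun h => h.2 h2)]
        simp
      · rw [Set.indicator_of_notMem h2]
        by_cases h3 : i ∈ Set.range e
        · rw [Set.indicator_of_mem h3, Set.indicator_of_mem
            (show i ∈ Set.range e \ (((Finset.range M).image e : Finset Γ) : Set Γ) from
              ⟨h3, h2⟩)]
          simp
        · rw [Set.indicator_of_notMem h3, Set.indicator_of_notMem (fun h => h3 h.1)]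
          simp
    rw [h1, norm_neg]
    refine lt_of_le_of_lt (hF _ ?_) (by linarith : ε / 2 < ε)
    intro i hi hiF
    obtain ⟨m, hm, hme⟩ := hN i hiF hi.1
    apply hi.2
    rw [Finset.coe_image]
    exact ⟨m, by simpa using lt_of_lt_of_le hm hM, hme⟩
  · ext i
    rw [restrG_apply]
    by_cases h : x i = 0
    · by_cases h2 : i ∈ Set.range e
      · rw [Set.indicator_of_mem h2]
      · rw [Set.indicator_of_notMem h2, h]
    · rw [Set.indicator_of_mem]
      apply he
      exact Set.mem_biUnion hx h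

theorem complementedEll1_L1 (Γ : Type u) [Infinite Γ] : ComplementedEll1 (L1 Γ) := by
  classical
  let ι : ℕ ↪ Γ := Infinite.natEmbedding Γ
  have hinj := ι.injective
  have hext : ∀ x : lp (fun _ : ℕ => ℂ) 1,
      HasSum (fun i => ‖Function.extend ι (fun n => x n) 0 i‖) ‖x‖ := by
    intro x
    have h1 := Ell1.hasSum_norm x
    have h2 : (fun i => ‖Function.extend ι (fun n => x n) 0 i‖)
        = Function.extend ι (fun n => ‖x n‖) 0 := by
      funext i
      by_cases h : ∃ n, ι n = i
      · obtain ⟨n, rfl⟩ := h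
        rw [hinj.extend_apply, hinj.extend_apply]
      · rw [Function.extend_apply' _ _ _ h, Function.extend_apply' _ _ _ h]
        simp
    rw [h2]
    exact (hasSum_extend_zero hinj).2 h1
  let J : lp (fun _ : ℕ => ℂ) 1 →L[ℂ] L1 Γ := LinearMap.mkContinuous
    { toFun := fun x => mk1 (Function.extend ι (fun n => x n) 0) (hext x).summable
      map_add' := fun x y => by
        ext i
        simp only [mk1_apply, lp.coeFn_add, Pi.add_apply]
        by_cases h : ∃ n, ι n = i
        · obtain ⟨n, rfl⟩ := h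
          rw [hinj.extend_apply, hinj.extend_apply, hinj.extend_apply]
        · rw [Function.extend_apply' _ _ _ h, Function.extend_apply' _ _ _ h,
            Function.extend_apply' _ _ _ h]
          simp
      map_smul' := fun c x => by
        ext i
        simp only [mk1_apply, lp.coeFn_smul, Pi.smul_apply, RingHom.id_apply, smul_eq_mul]
        by_cases h : ∃ n, ι n = i
        · obtain ⟨n, rfl⟩ := h
          rw [hinj.extend_apply, hinj.extend_apply]
        · rw [Function.extend_apply' _ _ _ h, Function.extend_apply' _ _ _ h]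
          simp }
    1 (fun x => by
      rw [one_mul]
      refine le_of_eq ?_
      exact (hasSum_norm _).unique (hext x))
  have hsum : ∀ (y : L1 Γ) (F : Finset ℕ), ∑ n ∈ F, ‖y (ι n)‖ ≤ ‖y‖ := by
    intro y F
    have := sum_norm_le y (F.map ι)
    rwa [Finset.sum_map] at this
  have hsm : ∀ y : L1 Γ, Summable fun n => ‖y (ι n)‖ := fun y =>
    (summable_norm y).comp_injective hinj
  let Q : L1 Γ →L[ℂ] lp (fun _ : ℕ => ℂ) 1 := LinearMap.mkContinuous
    { toFun := fun y => Ell1.mk (fun n => y (ι n)) (hsm y)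
      map_add' := fun x y => by
        ext i
        simp
      map_smul' := fun c x => by
        ext i
        simp }
    1 (fun y => by
      rw [one_mul]
      exact Ell1.norm_le_of_sum_le _ _ (fun F => hsum y F))
  refine ⟨J, Q, fun x => ?_⟩
  ext n
  show Function.extend ι (fun n => x n) 0 (ι n) = x n
  rw [hinj.extend_apply]

end EllG

theorem seqAP_prod {X : Type u} {Y : Type v} [NormedAddCommGroup X] [NormedSpace ℂ X]
    [NormedAddCommGroup Y] [NormedSpace ℂ Y] (hX : SeqAP X) (hY : SeqAP Y) : SeqAP (X × Y) := by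
  intro S hS
  obtain ⟨R, P, h1, h2, h3⟩ := hX (Prod.fst '' S) (hS.image _)
  obtain ⟨R', P', h1', h2', h3'⟩ := hY (Prod.snd '' S) (hS.image _)
  refine ⟨fun M => (R M).prodMap (R' M), P.prodMap P', fun M => ?_, fun x => ?_, fun x hx => ?_⟩
  · have := h1 M
    have := h1' M
    have hle : LinearMap.range (((R M).prodMap (R' M) : X × Y →L[ℂ] X × Y) : X × Y →ₗ[ℂ] X × Y)
        ≤ LinearMap.range (LinearMap.prodMap (LinearMap.range (R M : X →ₗ[ℂ] X)).subtype
          (LinearMap.range (R' M : Y →ₗ[ℂ] Y)).subtype) := by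
      rintro _ ⟨⟨x, y⟩, rfl⟩
      exact ⟨(⟨R M x, ⟨x, rfl⟩⟩, ⟨R' M y, ⟨y, rfl⟩⟩), rfl⟩
    exact Submodule.finiteDimensional_of_le hle
  · exact (h2 x.1).prodMk_nhds (h2' x.2)
  · exact Prod.ext (h3 _ ⟨x, hx, rfl⟩) (h3' _ ⟨x, hx, rfl⟩)

theorem complementedEll1_prod (X : Type u) [NormedAddCommGroup X] [NormedSpace ℂ X] :
    ComplementedEll1 (X × lp (fun _ : ℕ => ℂ) 1) :=
  ⟨ContinuousLinearMap.inr ℂ X _, ContinuousLinearMap.snd ℂ X _, fun _ => rfl⟩

/-- There is a sequence of bounded operators of finite rank on `E` which converges pointwise to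
the identity. -/
def FiniteRankApprox (E : Type u) [NormedAddCommGroup E] [NormedSpace ℂ E] : Prop :=
  ∃ R : ℕ → E →L[ℂ] E, (∀ n, FiniteDimensional ℂ (LinearMap.range (R n : E →ₗ[ℂ] E))) ∧
    ∀ x, Tendsto (fun n => R n x) atTop (𝓝 x)

theorem FiniteRankApprox.seqAP {E : Type u} [NormedAddCommGroup E] [NormedSpace ℂ E]
    (h : FiniteRankApprox E) : SeqAP E := by
  obtain ⟨R, hR, hR'⟩ := h
  exact fun S _ => ⟨R, ContinuousLinearMap.id ℂ E, hR, hR', fun x _ => rfl⟩

end Pool.Agent.Y277.KE
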